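import Mathlib
import Pool.Agent.Lib.MP_7c4eee_pr.H13Zero

open MeasureTheory ProbabilityTheory Filter Topology BoundedContinuousFunction
open scoped NNReal ContDiff
open Pool.Agent.Lib.MP_7c4eee_pr

namespace Pool.Agent.Lib.MP_7c4eee_pr.Variants.NoGaussianMixture

/-- A smooth bounded simply connected domain, an admissible weight and a mean zero test function
such that every limit point in law of the tested height function along the meshes `1 / (2 k + 1)`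
has a characteristic function with a real zero. -/
theorem result : ∃ (D : Set ℂ) (Φ : ℝ → ℝ) (f : ℂ → ℝ),
    (IsOpen D ∧ Bornology.IsBounded D ∧ IsSimplyConnected D ∧
      ∃ F : ℂ → ℝ, ContDiff ℝ ∞ F ∧ D = {z | F z < 0} ∧ ∀ z, F z = 0 → fderiv ℝ F z ≠ 0) ∧
    (ContDiff ℝ ∞ Φ ∧ (∀ t, 0 ≤ Φ t) ∧ (∃ C, ∀ t, Φ t ≤ C) ∧ (∀ t, Φ (-t) = Φ t) ∧
      (∃ a, ∀ t, a ≤ |t| → Φ t = 0) ∧ ∃ c > 0, ∀ᶠ t in 𝓝 0, c ≤ Φ t) ∧
    (ContDiff ℝ ∞ f ∧ HasCompactSupport f ∧ tsupport f ⊆ D ∧ ∫ z, f z = 0) ∧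
    ∀ (x0 : ℝ → Pt) (c : ℝ → ℂ → Pt),
      (∀ᶠ δ in 𝓝[>] 0, pos δ (x0 δ) ∈ D ∧ Measurable (c δ) ∧ ∀ z, ‖z - pos δ (c δ z)‖ ≤ 2 * δ) →
      (∀ᶠ δ in 𝓝[>] 0, (∀ x, x ∈ vert D δ (x0 δ) ↔ Rch {y | pos δ y ∈ D} (x0 δ) x) ∧
        expect Φ (vert D δ (x0 δ)) (x0 δ) (fun _ => 1) = 1) ∧
      ∀ δ : ℕ → ℝ, (∀ j, ∃ k : ℕ, δ j = 1 / (2 * k + 1)) → Tendsto δ atTop (𝓝 0) →
        ∀ ν : Measure ℝ, IsProbabilityMeasure ν →
        (∀ φ : ℝ →ᵇ ℝ, Tendsto (fun j => expect Φ (vert D (δ j) (x0 (δ j))) (x0 (δ j))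
          fun H => φ (pairing (c (δ j)) f H)) atTop (𝓝 (∫ y, φ y ∂ν))) →
        ∃ t : ℝ, charFun ν t = 0 := by
  obtain ⟨Φ, f, a, b, h⟩ := counter_zero
  refine ⟨_, Φ, f, ⟨isOpen_lt dfn_smooth.continuous continuous_const, dfn_bounded, dfn_simply,
    dfn, dfn_smooth, rfl, fun _ => dfn_regular⟩, a, b, fun x0 c d => ⟨?_, fun δ k l ν m n => ?_⟩⟩
  · obtain ⟨a1, a2, -, -, ⟨r, a3⟩, e, a4, a5⟩ := a
    filter_upwards [d, self_mem_nhdsWithin] with δ k l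
    exact ⟨vert_spec dfn_bounded l k.1,
      expect_one a1.continuous a2 (a4.trans_le a5.self_of_nhds) a3 _ _ _⟩
  choose κ k using k
  obtain rfl : δ = _ := funext k
  refine h x0 c d κ (tendsto_atTop.2 fun N => ?_) ν m n
  filter_upwards [l.eventually (gt_mem_nhds (show (0 : ℝ) < 1 / (2 * N + 1) by positivity))] with j e
  have := (one_div_lt_one_div (by positivity) (by positivity)).1 e
  exact_mod_cast (show (N : ℝ) ≤ κ j by linarith)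

end Pool.Agent.Lib.MP_7c4eee_pr.Variants.NoGaussianMixture
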